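import Pool.Agent.H54.WM.Targets

/-!
# Elementary embeddings of HOD: module TR (transfer of absolute predicates)
-/

open Ordinal Cardinal Order Set
open scoped ZFSet

universe u

namespace Pool.Agent.H42.WM.TR

open _root_.HD Pool.Agent.H54.WM

theorem ex_VH {ρ : Ordinal.{u}} {w : ZFSet.{u}} (hw : w ∈ HV ρ) : ∃ y, VH ρ y ∧ w ∈ y := by
  refine ⟨{w, w}, ⟨(mem_HV.1 hw).2.upair (mem_HV.1 hw).2, fun z hz => ?_⟩,
    ZFSet.mem_pair.2 (Or.inl rfl)⟩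
  rcases ZFSet.mem_pair.1 hz with rfl | rfl
  · exact (mem_HV.1 hw).1
  · exact (mem_HV.1 hw).1

/-- the formula which expresses the quantification over `(V_ ρ)^HOD` -/
def psi (φ : Fml) : Fml :=
  .neg (.ex (.and (.ex (.mem 1 0)) (.ex (.and (.ex (.mem 1 0)) (.neg φ)))))

theorem key {ρ : Ordinal.{u}} {R : ZFSet.{u} → ZFSet.{u} → (ℕ → ZFSet.{u}) → Prop} {φ : Fml}
    (hφ : ∀ M : ZFSet.{u} → Prop, (∀ x, M x → ∀ y ∈ x, M y) → ∀ v : ℕ → ZFSet.{u},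
      (∀ n, M (v n)) → (R (v 1) (v 0) (fun n => v (n + 2)) ↔ Sat M φ v))
    {v : ℕ → ZFSet.{u}} (hv : ∀ n, VH ρ (v n)) :
    (∀ w ∈ HV ρ, ∀ w' ∈ HV ρ, R w w' v) ↔ Sat (VH ρ) (psi φ) v := by
  have hc : ∀ w w', VH ρ w → VH ρ w' → ∀ n, VH ρ (cons w' (cons w v) n) := by
    rintro w w' hw hw' (_ | _ | n)
    exacts [hw', hw, hv n]
  have hR : ∀ w w', VH ρ w → VH ρ w' → (R w w' v ↔ Sat (VH ρ) φ (cons w' (cons w v))) :=
    fun w w' hw hw' => hφ (VH ρ) VH_tra (cons w' (cons w v)) (hc w w' hw hw')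
  constructor
  · rintro h ⟨w, hw, ⟨y, hy, hwy⟩, w', hw', ⟨y', hy', hwy'⟩, hn⟩
    exact hn ((hR w w' hw hw').1 (h w (mem_HV_of_VH hy hwy) w' (mem_HV_of_VH hy' hwy')))
  · intro h w hw w' hw'
    by_contra hn
    obtain ⟨y, hy, hwy⟩ := ex_VH hw
    obtain ⟨y', hy', hwy'⟩ := ex_VH hw'
    exact h ⟨w, VH_of_HV hw, ⟨y, hy, hwy⟩, w', VH_of_HV hw', ⟨y', hy', hwy'⟩,
      fun hs => hn ((hR w w' (VH_of_HV hw) (VH_of_HV hw')).2 hs)⟩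

theorem X : Pool.Agent.H54.WM.T_TR.{u} := by
  intro ξ κ j h
  have tr : ∀ R : ZFSet.{u} → ZFSet.{u} → (ℕ → ZFSet.{u}) → Prop,
      (D0 fun v => R (v 0) (v 1) (fun n => v (n + 2))) → ∀ v, (∀ n, VH ξ (v n)) →
      ((∀ w ∈ HV ξ, ∀ w' ∈ HV ξ, R w w' v) ↔ ∀ w ∈ HV κ, ∀ w' ∈ HV κ, R w w' (j ∘ v)) := by
    intro R hR v hv
    have hR' : D0 fun v => R (v 1) (v 0) (fun n => v (n + 2)) :=
      hR.ren (fun n => if n = 0 then 1 else if n = 1 then 0 else n)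
    obtain ⟨φ, hφ⟩ := hR'
    rw [key hφ hv, key hφ (v := j ∘ v) fun n => h.emb.map _ (hv n)]
    exact h.emb.elem _ v hv
  refine ⟨tr, ?_, ?_⟩
  · have hV : VH ξ (HV ξ) := ⟨hod_HV ξ, HV_sub ξ⟩
    have h1 := (tr (fun w _ v => w ∈ v 0) (D0.mem 0 2) (fun _ => HV ξ) fun _ => hV).1
      fun w hw _ _ => hw
    ext z
    exact ⟨fun hz => mem_HV_of_VH (h.emb.map _ hV) hz, fun hz => h1 z hz z hz⟩
  · exact h.emb.fix ∅ hod_empty (mem_HV.1 (empty_mem_HV h.lξ)).1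

end Pool.Agent.H42.WM.TR
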