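import Pool.Agent.H54.WM.Targets

/-!
# Elementary embeddings of HOD: module TSH (the truth sets are in HOD)
-/

open Ordinal Cardinal Order Set
open scoped ZFSet

universe u

namespace Pool.Agent.H42.WM.TSH

open _root_.HD Pool.Agent.H54.WM

/-- terms: variables, and values of sets at entries of variables -/
inductive Ter : Type (u + 1)
  | vr (i : ℕ) : Ter
  | fn (g : ZFSet.{u}) (m i : ℕ) : Ter

/-- value of a term -/
noncomputable def tv (v : ℕ → ZFSet.{u}) : Ter.{u} → ZFSet.{u}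
  | .vr i => v i
  | .fn g m i => ap g (pr m (v i))

/-- the parameters of a term are ordinal definable -/
def ODt : Ter.{u} → Prop
  | .vr _ => True
  | .fn g _ _ => OD g

/-- shift of the variables of a term -/
def sh : Ter.{u} → Ter.{u}
  | .vr i => .vr (i + 1)
  | .fn g m i => .fn g m (i + 1)

theorem tv_sh (v : ℕ → ZFSet.{u}) (t : Ter.{u}) : tv v (sh t) = tv (fun n => v (n + 1)) t := by
  cases t <;> rfl

theorem odt_sh {t : Ter.{u}} (h : ODt t) : ODt (sh t) := by
  cases t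
  · trivial
  · exact h

theorem dz_tv {t : Ter.{u}} (h : ODt t) (k : ℕ) : DZ.{u} fun v => v k = tv v t := by
  rcases t with i | ⟨g, m, i⟩
  · exact DZ.eq k i
  · refine DZ.od (R := fun b v => v k = ap b (pr m (v i))) h ?_
    refine (DZ.ex (R := fun w v => w = pr m (v (i + 1)) ∧ v (k + 1) = ap (v 0) w)
      ((D0.pr m 0 (i + 2)).dz.and (D0.ap (k + 2) 1 0).dz)).congr fun v => ?_
    simp

theorem dz_rel {s t : Ter.{u}} (hs : ODt s) (ht : ODt t) {P : ZFSet.{u} → ZFSet.{u} → Prop}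
    (hP : DZ.{u} fun v => P (v 1) (v 0)) : DZ.{u} fun v => P (tv v s) (tv v t) := by
  have h1 : DZ.{u} fun v => v 0 = tv (fun n => v (n + 1)) s :=
    (dz_tv (odt_sh hs) 0).congr fun v => by rw [tv_sh]
  have h2 : DZ.{u} fun v => v 0 = tv (fun n => v (n + 2)) t :=
    (dz_tv (odt_sh (odt_sh ht)) 0).congr fun v => by rw [tv_sh, tv_sh]
  refine (DZ.ex (R := fun a v => a = tv v s ∧ ∃ b, b = tv v t ∧ P a b) (h1.and
    (DZ.ex (R := fun b v => b = tv (fun n => v (n + 1)) t ∧ P (v 0) b) (h2.and hP)))).congr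
    fun v => ?_
  constructor
  · intro h
    exact ⟨_, rfl, _, rfl, h⟩
  · rintro ⟨a, rfl, b, rfl, h⟩
    exact h

/-- the shifted sequence of terms under a quantifier -/
def shs (T : ℕ → Ter.{u}) : ℕ → Ter.{u}
  | 0 => .vr 0
  | n + 1 => sh (T n)

theorem dz_sat (φ : Fml) : ∀ T : ℕ → Ter.{u}, (∀ n, ODt (T n)) →
    DZ.{u} fun v => Sat HOD φ fun n => tv v (T n) := by
  induction φ with
  | mem i l => exact fun T hT => dz_rel (P := fun a b => a ∈ b) (hT i) (hT l) (DZ.mem 1 0)
  | eq i l => exact fun T hT => dz_rel (P := fun a b => a = b) (hT i) (hT l) (DZ.eq 1 0)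
  | neg φ ih => exact fun T hT => (ih T hT).not
  | and φ ψ ih1 ih2 => exact fun T hT => (ih1 T hT).and (ih2 T hT)
  | ex φ ih =>
    intro T hT
    refine DZ.ex (R := fun x v => HOD x ∧ Sat HOD φ (cons x fun n => tv v (T n)))
      ((Pool.Agent.H3.HD.DM.dz_hod 0).and ((ih (shs T) ?_).congr fun v => ?_))
    · rintro (_ | n)
      · trivial
      · exact odt_sh (hT n)
    · have e : (fun n => tv v (shs T n)) = cons (v 0) fun n => tv (fun n => v (n + 1)) (T n) := by
        funext n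
        rcases n with _ | n
        · rfl
        · exact tv_sh v (T n)
      rw [e]

theorem X : T_TSH.{u} := by
  intro ξ φ f hf
  refine hod_iff.2 ⟨?_, fun w hw => (mem_HV.1 (mem_TS.1 hw).1).2⟩
  refine OD.of_mem (P := fun v => v 0 ∈ HV ξ ∧ Sat HOD φ (fun n => ap (f n) (pr n (v 0)))) ?_
    fun v => mem_TS.symm
  exact (DZ.od (R := fun b v => v 0 ∈ b) (hod_HV ξ).od (DZ.mem 1 0)).and
    (dz_sat φ (fun n => .fn (f n) n 0) fun n => (hf n).od)

end Pool.Agent.H42.WM.TSH
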